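import Mathlib

/-!
# The gap between the strong vertex span and the strong edge span is at most one, and one occurs

We show that `sigma_V(H) - sigma_E(H)` is always `0` or `1` for finite connected graphs `H`, and
that the value `1` occurs, so the supremum `D` of the problem equals `1` (and is attained).

* Upper bound: given two surjective weak homomorphisms `f, g` on a path which stay at distance at
  least `m`, the pairs `(v, g x)` with `v` adjacent to `f x` are at distance at least `m - 1`, so a
  longer walk in the pair graph at level `m - 1` traverses every edge in both coordinates.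
* Lower bound: an explicit graph on six vertices with `sigma_V = 2` and `sigma_E = 1`.
-/

namespace Pool.Agent.Results.MP_5796a1_co.StrongSpanGap

open SimpleGraph

/-- `f` is a surjective weak homomorphism from `G` to `H`: it is onto, and the endpoints of each
edge of `G` go to equal or to adjacent vertices of `H`. -/
def IsSurjWeakHom {U V : Type} (G : SimpleGraph U) (H : SimpleGraph V) (f : U → V) : Prop :=
  (∀ ⦃x y : U⦄, G.Adj x y → f x = f y ∨ H.Adj (f x) (f y)) ∧ Function.Surjective f

/-- `f` is an edge surjective weak homomorphism from `G` to `H`: a surjective weak homomorphism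
such that every edge `uv` of `H` is `u = f x`, `v = f y` for some edge `xy` of `G`. -/
def IsEdgeSurjWeakHom {U V : Type} (G : SimpleGraph U) (H : SimpleGraph V) (f : U → V) : Prop :=
  IsSurjWeakHom G H f ∧ ∀ ⦃u v : V⦄, H.Adj u v → ∃ x y : U, G.Adj x y ∧ f x = u ∧ f y = v

/-- The numbers `m_P(f, g) = min_u d_H(f u, g u)` over all paths `P` (the path on `k + 1` vertices,
for every `k`) and all pairs of surjective weak homomorphisms `f, g : P → H`. -/
def vertexSpanValues {V : Type} (H : SimpleGraph V) : Set ℕ :=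
  {m | ∃ (k : ℕ) (f g : Fin (k + 1) → V), IsSurjWeakHom (pathGraph (k + 1)) H f ∧
    IsSurjWeakHom (pathGraph (k + 1)) H g ∧ m = ⨅ u, H.dist (f u) (g u)}

/-- The same numbers, over pairs of edge surjective weak homomorphisms. -/
def edgeSpanValues {V : Type} (H : SimpleGraph V) : Set ℕ :=
  {m | ∃ (k : ℕ) (f g : Fin (k + 1) → V), IsEdgeSurjWeakHom (pathGraph (k + 1)) H f ∧
    IsEdgeSurjWeakHom (pathGraph (k + 1)) H g ∧ m = ⨅ u, H.dist (f u) (g u)}

/-- The strong vertex span. -/
noncomputable def strongVertexSpan {V : Type} (H : SimpleGraph V) : ℕ := sSup (vertexSpanValues H)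

/-- The strong edge span. -/
noncomputable def strongEdgeSpan {V : Type} (H : SimpleGraph V) : ℕ := sSup (edgeSpanValues H)

/-! ### Covering walks -/

/-- In a graph with finitely many vertices, some walk from `x0` visits every vertex and traverses
every edge of the component of `x0`. -/
lemma exists_covering_walk {X : Type} [Finite X] (Γ : SimpleGraph X) (x0 : X) :
    ∃ (y : X) (w : Γ.Walk x0 y), (∀ p, Γ.Reachable x0 p → p ∈ w.support) ∧
      (∀ p q, Γ.Reachable x0 p → Γ.Adj p q → s(p, q) ∈ w.edges) := by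
  classical
  have := Fintype.ofFinite X
  -- first cover vertices
  have hA : ∀ T : Finset X, (∀ p ∈ T, Γ.Reachable x0 p) →
      ∃ (y : X) (w : Γ.Walk x0 y), ∀ p ∈ T, p ∈ w.support := by
    intro T
    induction T using Finset.induction_on with
    | empty => intro _; exact ⟨x0, Walk.nil, by simp⟩
    | insert a T ha ih =>
      intro h
      obtain ⟨y, w, hw⟩ := ih (fun p hp => h p (Finset.mem_insert_of_mem hp))
      have hy : Γ.Reachable y a := (w.reachable.symm).trans (h a (Finset.mem_insert_self _ _))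
      obtain ⟨w'⟩ := hy
      refine ⟨a, w.append w', ?_⟩
      intro p hp
      rw [Walk.mem_support_append_iff]
      rcases Finset.mem_insert.1 hp with rfl | hp
      · right; exact Walk.end_mem_support _
      · left; exact hw p hp
  have hB : ∀ T : Finset (X × X), (∀ e ∈ T, Γ.Reachable x0 e.1 ∧ Γ.Adj e.1 e.2) →
      ∃ (y : X) (w : Γ.Walk x0 y), ∀ e ∈ T, s(e.1, e.2) ∈ w.edges := by
    intro T
    induction T using Finset.induction_on with
    | empty => intro _; exact ⟨x0, Walk.nil, by simp⟩
    | insert a T ha ih =>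
      intro h
      obtain ⟨y, w, hw⟩ := ih (fun p hp => h p (Finset.mem_insert_of_mem hp))
      obtain ⟨h1, h2⟩ := h a (Finset.mem_insert_self _ _)
      have hy : Γ.Reachable y a.1 := (w.reachable.symm).trans h1
      obtain ⟨w'⟩ := hy
      refine ⟨a.2, w.append (w'.append (Walk.cons h2 Walk.nil)), ?_⟩
      intro e he
      rw [Walk.edges_append, Walk.edges_append, List.mem_append, List.mem_append]
      rcases Finset.mem_insert.1 he with rfl | he
      · right; right; simp
      · left; exact hw e he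
  obtain ⟨y, w, hw⟩ := hA (Finset.univ.filter fun p => Γ.Reachable x0 p) (by simp)
  obtain ⟨z, w', hw'⟩ := hB (Finset.univ.filter fun e => Γ.Reachable x0 e.1 ∧ Γ.Adj e.1 e.2)
    (by simp)
  refine ⟨z, (w.append w.reverse).append w', ?_, ?_⟩
  · intro p hp
    rw [Walk.mem_support_append_iff, Walk.mem_support_append_iff]
    left; left; exact hw p (by simpa using hp)
  · intro p q hp hpq
    rw [Walk.edges_append, List.mem_append]
    right
    exact hw' (p, q) (by simpa using ⟨hp, hpq⟩)

/-- Edges of a walk are pairs of consecutive vertices. -/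
lemma exists_getVert_of_mem_edges {X : Type} {Γ : SimpleGraph X} {x y : X} (w : Γ.Walk x y)
    {p q : X} (h : s(p, q) ∈ w.edges) :
    ∃ i, i < w.length ∧ ((w.getVert i = p ∧ w.getVert (i + 1) = q) ∨
      (w.getVert i = q ∧ w.getVert (i + 1) = p)) := by
  induction w with
  | nil => simp at h
  | @cons u v t huv w' ih =>
    rw [Walk.edges_cons, List.mem_cons] at h
    rcases h with h | h
    · refine ⟨0, by simp, ?_⟩
      simp only [Walk.getVert_zero, Walk.getVert_cons_succ]
      rw [Sym2.eq_iff] at h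
      rcases h with ⟨rfl, rfl⟩ | ⟨rfl, rfl⟩
      · left; simp
      · right; simp
    · obtain ⟨i, hi, h'⟩ := ih h
      refine ⟨i + 1, by simpa using hi, ?_⟩
      simpa only [Walk.getVert_cons_succ] using h'

/-- The graph on pairs of vertices of `H` at distance at least `s`, where each coordinate stays or
moves to a neighbour. -/
def pairGraph {V : Type} (H : SimpleGraph V) (s : ℕ) : SimpleGraph (V × V) where
  Adj p q := p ≠ q ∧ (p.1 = q.1 ∨ H.Adj p.1 q.1) ∧ (p.2 = q.2 ∨ H.Adj p.2 q.2) ∧
    s ≤ H.dist p.1 p.2 ∧ s ≤ H.dist q.1 q.2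
  symm := ⟨fun _ _ ⟨h1, h2, h3, h4, h5⟩ =>
    ⟨h1.symm, h2.elim (fun h => Or.inl h.symm) (fun h => Or.inr h.symm),
      h3.elim (fun h => Or.inl h.symm) (fun h => Or.inr h.symm), h5, h4⟩⟩
  loopless := ⟨fun _ ⟨h, _⟩ => h rfl⟩

/-- The key construction: two surjective weak homomorphisms at distance at least `s` give two edge
surjective ones at distance at least `s - 1`. -/
lemma detour {V : Type} [Finite V] {H : SimpleGraph V} (hH : H.Connected) {k : ℕ}
    {f g : Fin (k + 1) → V} (hf : IsSurjWeakHom (pathGraph (k + 1)) H f)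
    (hg : IsSurjWeakHom (pathGraph (k + 1)) H g) (s : ℕ) (hs : ∀ i, s ≤ H.dist (f i) (g i)) :
    ∃ (k' : ℕ) (f' g' : Fin (k' + 1) → V), IsEdgeSurjWeakHom (pathGraph (k' + 1)) H f' ∧
      IsEdgeSurjWeakHom (pathGraph (k' + 1)) H g' ∧ ∀ i, s - 1 ≤ H.dist (f' i) (g' i) := by
  set Γ := pairGraph H (s - 1) with hΓ
  set x0 : V × V := (f 0, g 0) with hx0
  have hs1 : ∀ i, s - 1 ≤ H.dist (f i) (g i) := fun i => le_trans (Nat.sub_le _ _) (hs i)
  have hreach : ∀ (n : ℕ) (hn : n < k + 1), Γ.Reachable x0 (f ⟨n, hn⟩, g ⟨n, hn⟩) := by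
    intro n
    induction n with
    | zero => intro hn; exact Reachable.refl _
    | succ n ih =>
      intro hn
      have h1 := ih (by omega)
      have hadj : (pathGraph (k + 1)).Adj ⟨n, by omega⟩ ⟨n + 1, hn⟩ := by
        rw [pathGraph_adj]; left; rfl
      by_cases heq : (f ⟨n, by omega⟩, g ⟨n, by omega⟩) = (f ⟨n + 1, hn⟩, g ⟨n + 1, hn⟩)
      · rw [← heq]; exact h1
      · refine h1.trans (Adj.reachable ?_)
        exact ⟨heq, hf.1 hadj, hg.1 hadj, hs1 _, hs1 _⟩
  obtain ⟨y, w, hwv, hwe⟩ := exists_covering_walk Γ x0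
  have hdist : ∀ n, s - 1 ≤ H.dist (w.getVert n).1 (w.getVert n).2 := by
    intro n
    induction n with
    | zero => rw [Walk.getVert_zero]; exact hs1 0
    | succ n ih =>
      by_cases hn : n < w.length
      · exact (w.adj_getVert_succ hn).2.2.2.2
      · rw [w.getVert_of_length_le (by omega : w.length ≤ n + 1)]
        rw [w.getVert_of_length_le (by omega : w.length ≤ n)] at ih
        exact ih
  have hstep : ∀ i j : Fin (w.length + 1), (pathGraph (w.length + 1)).Adj i j →
      ((w.getVert i).1 = (w.getVert j).1 ∨ H.Adj (w.getVert i).1 (w.getVert j).1) ∧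
      ((w.getVert i).2 = (w.getVert j).2 ∨ H.Adj (w.getVert i).2 (w.getVert j).2) := by
    have aux : ∀ i j : Fin (w.length + 1), i.val + 1 = j.val →
      ((w.getVert i).1 = (w.getVert j).1 ∨ H.Adj (w.getVert i).1 (w.getVert j).1) ∧
      ((w.getVert i).2 = (w.getVert j).2 ∨ H.Adj (w.getVert i).2 (w.getVert j).2) := by
      intro i j hij
      have hi : i.val < w.length := by have := j.isLt; omega
      have h := w.adj_getVert_succ hi
      rw [hij] at h
      exact ⟨h.2.1, h.2.2.1⟩
    intro i j hij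
    rw [pathGraph_adj] at hij
    rcases hij with hij | hij
    · exact aux i j hij
    · obtain ⟨h1, h2⟩ := aux j i hij
      exact ⟨h1.elim (fun h => Or.inl h.symm) (fun h => Or.inr h.symm),
        h2.elim (fun h => Or.inl h.symm) (fun h => Or.inr h.symm)⟩
  -- every edge of the pair graph in the component of `x0` is traversed
  have htrav : ∀ p q : V × V, Γ.Reachable x0 p → Γ.Adj p q →
      ∃ i j : Fin (w.length + 1), (pathGraph (w.length + 1)).Adj i j ∧
        w.getVert i = p ∧ w.getVert j = q := by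
    intro p q hp hpq
    obtain ⟨i, hi, h | h⟩ := exists_getVert_of_mem_edges w (hwe p q hp hpq)
    · exact ⟨⟨i, by omega⟩, ⟨i + 1, by omega⟩, by rw [pathGraph_adj]; left; rfl, h.1, h.2⟩
    · exact ⟨⟨i + 1, by omega⟩, ⟨i, by omega⟩, by rw [pathGraph_adj]; right; rfl, h.2, h.1⟩
  refine ⟨w.length, fun i => (w.getVert i).1, fun i => (w.getVert i).2, ?_, ?_, fun i => hdist i⟩
  · refine ⟨⟨fun x y hxy => (hstep x y hxy).1, ?_⟩, ?_⟩
    · intro v
      obtain ⟨i, hi⟩ := hf.2 v
      have h := hwv _ (hreach i.val i.isLt)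
      rw [Walk.mem_support_iff_exists_getVert] at h
      obtain ⟨n, hn, hn'⟩ := h
      exact ⟨⟨n, by omega⟩, by simp only; rw [hn]; exact hi⟩
    · intro u v huv
      obtain ⟨i, hi⟩ := hf.2 u
      have hr := hreach i.val i.isLt
      have hfi : f ⟨i.val, i.isLt⟩ = u := hi
      rw [hfi] at hr
      have hd : s ≤ H.dist u (g i) := by have := hs i; rwa [hi] at this
      have hadj : Γ.Adj (u, g i) (v, g i) := by
        refine ⟨fun h => huv.ne (congrArg Prod.fst h), Or.inr huv, Or.inl rfl,
          le_trans (Nat.sub_le _ _) hd, ?_⟩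
        have h1 : H.dist u (g i) ≤ H.dist u v + H.dist v (g i) := hH.dist_triangle
        have h2 : H.dist u v = 1 := dist_eq_one_iff_adj.2 huv
        simp only
        omega
      obtain ⟨a, b, hab, ha, hb⟩ := htrav _ _ hr hadj
      exact ⟨a, b, hab, by simp only; rw [ha], by simp only; rw [hb]⟩
  · refine ⟨⟨fun x y hxy => (hstep x y hxy).2, ?_⟩, ?_⟩
    · intro v
      obtain ⟨i, hi⟩ := hg.2 v
      have h := hwv _ (hreach i.val i.isLt)
      rw [Walk.mem_support_iff_exists_getVert] at h
      obtain ⟨n, hn, hn'⟩ := h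
      exact ⟨⟨n, by omega⟩, by simp only; rw [hn]; exact hi⟩
    · intro u v huv
      obtain ⟨i, hi⟩ := hg.2 u
      have hr := hreach i.val i.isLt
      have hfi : g ⟨i.val, i.isLt⟩ = u := hi
      rw [hfi] at hr
      have hd : s ≤ H.dist (f i) u := by have := hs i; rwa [hi] at this
      have hadj : Γ.Adj (f i, u) (f i, v) := by
        refine ⟨fun h => huv.ne (congrArg Prod.snd h), Or.inl rfl, Or.inr huv,
          le_trans (Nat.sub_le _ _) hd, ?_⟩
        have h1 : H.dist (f i) u ≤ H.dist (f i) v + H.dist v u := hH.dist_triangle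
        have h2 : H.dist v u = 1 := dist_eq_one_iff_adj.2 huv.symm
        simp only
        omega
      obtain ⟨a, b, hab, ha, hb⟩ := htrav _ _ hr hadj
      exact ⟨a, b, hab, by simp only; rw [ha], by simp only; rw [hb]⟩

/-! ### The two maxima exist -/

lemma edgeSpanValues_subset {V : Type} (H : SimpleGraph V) :
    edgeSpanValues H ⊆ vertexSpanValues H := by
  rintro m ⟨k, f, g, hf, hg, hm⟩
  exact ⟨k, f, g, hf.1, hg.1, hm⟩

lemma vertexSpanValues_bddAbove {V : Type} [Finite V] (H : SimpleGraph V) :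
    BddAbove (vertexSpanValues H) := by
  have hfin : (Set.range fun p : V × V => H.dist p.1 p.2).Finite := Set.finite_range _
  obtain ⟨B, hB⟩ := hfin.bddAbove
  refine ⟨B, ?_⟩
  rintro m ⟨k, f, g, hf, hg, rfl⟩
  exact le_trans (ciInf_le (OrderBot.bddBelow _) 0) (hB ⟨(f 0, g 0), rfl⟩)

lemma exists_surjWeakHom {V : Type} [Finite V] {H : SimpleGraph V} (hH : H.Connected) :
    ∃ (k : ℕ) (f : Fin (k + 1) → V), IsSurjWeakHom (pathGraph (k + 1)) H f := by
  obtain ⟨x0⟩ := hH.nonempty
  obtain ⟨y, w, hwv, -⟩ := exists_covering_walk H x0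
  refine ⟨w.length, fun i => w.getVert i, ?_, ?_⟩
  · intro i j hij
    rw [pathGraph_adj] at hij
    rcases hij with hij | hij
    · right
      have hi : i.val < w.length := by have := j.isLt; omega
      have h := w.adj_getVert_succ hi
      rwa [hij] at h
    · right
      have hi : j.val < w.length := by have := i.isLt; omega
      have h := w.adj_getVert_succ hi
      rw [hij] at h
      exact h.symm
  · intro v
    have h := hwv v (hH.preconnected x0 v)
    rw [Walk.mem_support_iff_exists_getVert] at h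
    obtain ⟨n, hn, hn'⟩ := h
    exact ⟨⟨n, by omega⟩, hn⟩

lemma edgeSpanValues_nonempty {V : Type} [Finite V] {H : SimpleGraph V} (hH : H.Connected) :
    (edgeSpanValues H).Nonempty := by
  obtain ⟨k, f, hf⟩ := exists_surjWeakHom hH
  obtain ⟨k', f', g', hf', hg', -⟩ := detour hH hf hf 0 (fun _ => Nat.zero_le _)
  exact ⟨_, k', f', g', hf', hg', rfl⟩

lemma isGreatest_vertex {V : Type} [Finite V] {H : SimpleGraph V} (hH : H.Connected) :
    IsGreatest (vertexSpanValues H) (strongVertexSpan H) :=
  ⟨Nat.sSup_mem ((edgeSpanValues_nonempty hH).mono (edgeSpanValues_subset H))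
    (vertexSpanValues_bddAbove H), fun _ hm => le_csSup (vertexSpanValues_bddAbove H) hm⟩

lemma isGreatest_edge {V : Type} [Finite V] {H : SimpleGraph V} (hH : H.Connected) :
    IsGreatest (edgeSpanValues H) (strongEdgeSpan H) :=
  have hb := (vertexSpanValues_bddAbove H).mono (edgeSpanValues_subset H)
  ⟨Nat.sSup_mem (edgeSpanValues_nonempty hH) hb, fun _ hm => le_csSup hb hm⟩

lemma edge_le_vertex {V : Type} [Finite V] {H : SimpleGraph V} (hH : H.Connected) :
    strongEdgeSpan H ≤ strongVertexSpan H :=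
  (isGreatest_vertex hH).2 (edgeSpanValues_subset H (isGreatest_edge hH).1)

/-- The upper bound: the vertex span exceeds the edge span by at most one. -/
lemma vertex_le_edge_add_one {V : Type} [Finite V] {H : SimpleGraph V} (hH : H.Connected) :
    strongVertexSpan H ≤ strongEdgeSpan H + 1 := by
  obtain ⟨k, f, g, hf, hg, hm⟩ := (isGreatest_vertex hH).1
  have hs : ∀ i, strongVertexSpan H ≤ H.dist (f i) (g i) := by
    intro i
    rw [hm]
    exact ciInf_le (OrderBot.bddBelow _) i
  obtain ⟨k', f', g', hf', hg', hd⟩ := detour hH hf hg _ hs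
  have h1 : strongVertexSpan H - 1 ≤ ⨅ u, H.dist (f' u) (g' u) := le_ciInf hd
  have h2 : (⨅ u, H.dist (f' u) (g' u)) ≤ strongEdgeSpan H :=
    (isGreatest_edge hH).2 ⟨k', f', g', hf', hg', rfl⟩
  omega

/-! ### A graph on six vertices with gap one -/

/-- The edges of the example. -/
def gapEdges : List (Fin 6 × Fin 6) :=
  [(0, 1), (0, 3), (0, 4), (0, 5), (1, 2), (1, 3), (1, 4), (2, 3), (2, 4)]

/-- The example: six vertices and nine edges. -/
def gapGraph : SimpleGraph (Fin 6) where
  Adj i j := (i, j) ∈ gapEdges ∨ (j, i) ∈ gapEdges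
  symm := ⟨fun _ _ h => h.symm⟩
  loopless := ⟨by decide⟩

instance : DecidableRel gapGraph.Adj := fun i j =>
  inferInstanceAs (Decidable ((i, j) ∈ gapEdges ∨ (j, i) ∈ gapEdges))

lemma gap_two (x : Fin 6) : ∃ p : gapGraph.Walk 0 x, p.length ≤ 2 := by
  have h : ∀ x : Fin 6, x = 0 ∨ gapGraph.Adj 0 x ∨ ∃ y, gapGraph.Adj 0 y ∧ gapGraph.Adj y x := by
    decide
  rcases h x with rfl | h | ⟨y, h1, h2⟩
  · exact ⟨Walk.nil, by simp⟩
  · exact ⟨Walk.cons h Walk.nil, by simp⟩
  · exact ⟨Walk.cons h1 (Walk.cons h2 Walk.nil), by simp⟩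

lemma gap_connected : gapGraph.Connected := by
  refine ⟨fun x y => ?_⟩
  obtain ⟨p, -⟩ := gap_two x
  obtain ⟨q, -⟩ := gap_two y
  exact ⟨p.reverse.append q⟩

lemma gap_dist (x : Fin 6) : gapGraph.dist 0 x ≤ 2 := by
  obtain ⟨p, hp⟩ := gap_two x
  exact (dist_le p).trans hp

lemma two_le_dist {x y : Fin 6} (h : x ≠ y) (h' : ¬ gapGraph.Adj x y) :
    2 ≤ gapGraph.dist x y := by
  have h0 : gapGraph.dist x y ≠ 0 := fun h0 => h (gap_connected.dist_eq_zero_iff.1 h0)
  have h1 : gapGraph.dist x y ≠ 1 := fun h1 => h' (dist_eq_one_iff_adj.1 h1)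
  omega

lemma of_two_le_dist {x y : Fin 6} (h : 2 ≤ gapGraph.dist x y) :
    x ≠ y ∧ ¬ gapGraph.Adj x y := by
  constructor
  · rintro rfl
    simp at h
  · intro h'
    rw [← dist_eq_one_iff_adj] at h'
    omega

lemma gap_vertex_ge : 2 ≤ strongVertexSpan gapGraph := by
  have hf : IsSurjWeakHom (pathGraph (6 + 1)) gapGraph ![5, 5, 0, 3, 2, 1, 4] := by
    refine ⟨?_, ?_⟩
    · intro i j hij
      rw [pathGraph_adj] at hij
      revert i j
      decide
    · intro v
      revert v
      decide
  have hg : IsSurjWeakHom (pathGraph (6 + 1)) gapGraph ![3, 1, 2, 4, 0, 5, 5] := by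
    refine ⟨?_, ?_⟩
    · intro i j hij
      rw [pathGraph_adj] at hij
      revert i j
      decide
    · intro v
      revert v
      decide
  have hd : ∀ i : Fin (6 + 1), 2 ≤ gapGraph.dist ((![5, 5, 0, 3, 2, 1, 4] : Fin 7 → Fin 6) i)
      ((![3, 1, 2, 4, 0, 5, 5] : Fin 7 → Fin 6) i) := by
    intro i
    apply two_le_dist
    · revert i; decide
    · revert i; decide
  exact le_trans (le_ciInf hd) ((isGreatest_vertex gap_connected).2 ⟨6, _, _, hf, hg, rfl⟩)

lemma gap_vertex_le : strongVertexSpan gapGraph ≤ 2 := by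
  obtain ⟨k, f, g, hf, hg, hm⟩ := (isGreatest_vertex gap_connected).1
  obtain ⟨i, hi⟩ := hf.2 0
  rw [hm]
  refine le_trans (ciInf_le (OrderBot.bddBelow _) i) ?_
  rw [hi]
  exact gap_dist _

lemma gap_edge_le : strongEdgeSpan gapGraph ≤ 1 := by
  obtain ⟨k, f, g, hf, hg, hm⟩ := (isGreatest_edge gap_connected).1
  by_contra hcon
  have hs : ∀ i, 2 ≤ gapGraph.dist (f i) (g i) := by
    intro i
    have h1 : (⨅ u, gapGraph.dist (f u) (g u)) ≤ gapGraph.dist (f i) (g i) :=
      ciInf_le (OrderBot.bddBelow _) i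
    omega
  obtain ⟨x, y, hxy, hx, hy⟩ := hf.2 (show gapGraph.Adj 0 1 by decide)
  have h1 := of_two_le_dist (hs x)
  have h2 := of_two_le_dist (hs y)
  have h3 := hg.1.1 hxy
  rw [hx] at h1
  rw [hy] at h2
  revert h1 h2 h3
  generalize g x = a
  generalize g y = b
  revert a b
  decide

/-- **Main theorem.** For every finite connected graph the strong vertex span and the strong edge
span are attained maxima, and the largest value of their difference over all finite connected
graphs is exactly `1`. -/
theorem result :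
    (∀ (V : Type) [Finite V] (H : SimpleGraph V), H.Connected →
      IsGreatest (vertexSpanValues H) (strongVertexSpan H) ∧
      IsGreatest (edgeSpanValues H) (strongEdgeSpan H)) ∧
    IsGreatest {d : ℤ | ∃ (V : Type) (_ : Finite V) (H : SimpleGraph V), H.Connected ∧
      d = (strongVertexSpan H : ℤ) - (strongEdgeSpan H : ℤ)} 1 := by
  refine ⟨fun V _ H hH => ⟨isGreatest_vertex hH, isGreatest_edge hH⟩, ?_, ?_⟩
  · refine ⟨Fin 6, inferInstance, gapGraph, gap_connected, ?_⟩
    have h1 := gap_vertex_ge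
    have h2 := gap_vertex_le
    have h3 := gap_edge_le
    have h4 := vertex_le_edge_add_one gap_connected
    omega
  · rintro d ⟨V, _, H, hH, rfl⟩
    have h4 := vertex_le_edge_add_one hH
    omega

end Pool.Agent.Results.MP_5796a1_co.StrongSpanGap
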